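import Pool.Agent.MP_77f003_co.H51.HBasic

/-!
Without a cross the rays of a thick end are cyclically ordered, and the elements fixing the end
rotate or reflect this order.
-/

namespace Pool.Agent.MP_77f003_co.H49

namespace Ord

open SimpleGraph Filter Set

variable {V : Type} {G : SimpleGraph V} {N : ℕ}

theorem lift [NeZero N] (e : ZMod N) (P : ℤ) : ∃ E : ℤ, (E : ZMod N) = e ∧ P ≤ E ∧ E < P + N := by
  have := ZMod.val_lt (e - (P : ZMod N))
  exact ⟨P + (e - (P : ZMod N)).val, by simp, by omega, by omega⟩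

theorem eq_of_cast {a b : ℤ} (h : (a : ZMod N) = b) (h1 : a - N < b) (h2 : b < a + N) : a = b := by
  have := Int.eq_zero_of_abs_lt_dvd ((ZMod.intCast_eq_intCast_iff_dvd_sub _ _ _).1 h)
    (abs_lt.2 ⟨by omega, by omega⟩)
  omega

theorem val_step [NeZero N] {a b : ℤ} (h1 : a < b) (h2 : b < a + N) :
    ((b : ZMod N).val : ℤ) = (a : ZMod N).val + (b - a) ∨
      ((b : ZMod N).val : ℤ) = (a : ZMod N).val + (b - a) - N := by
  have e1 := ZMod.val_lt (a : ZMod N)
  have e2 := ZMod.val_lt (b : ZMod N)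
  rcases lt_or_ge (((a : ZMod N).val : ℤ) + (b - a)) N with h | h
  · exact Or.inl (eq_of_cast (N := N) (by simp) (by omega) (by omega))
  · exact Or.inr (eq_of_cast (N := N) (by simp) (by omega) (by omega))

theorem lin [NeZero N] (hN : 3 ≤ N) {π : ZMod N → ZMod N} (hπ : Function.Injective π) {s : ZMod N}
    (h : ∀ x, π (x + 1) = π x + s ∨ π (x + 1) = π x - s) (h0 : π (0 + 1) = π 0 + s) (x : ZMod N) :
    π x = π 0 + s * x := by
  have k : ∀ n : ℕ, π ((n : ZMod N) + 1) = π n + s := fun n => by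
    induction n with
    | zero => simpa using h0
    | succ n ih =>
      refine (h _).resolve_right fun e => ?_
      rw [Nat.cast_succ, ih, add_sub_cancel_right] at e
      have := eq_of_cast (N := N) (a := 2) (b := 0) (by
        have := hπ e
        rw [add_assoc, add_eq_left] at this
        rw [Int.cast_zero, ← this]
        norm_num) (by omega) (by omega)
      omega
  have k' : ∀ n : ℕ, π (n : ZMod N) = π 0 + s * n := fun n => by
    induction n with
    | zero => simp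
    | succ n ih => rw [Nat.cast_succ, k, ih]; ring
  simpa using k' x.val

variable [Fact G.Connected] {κ S : ℕ} {ω : ℕ → V}

theorem lnk_of_rch {ι : Type} {L : ι → ℕ → V} (h : RF G S ω L) (hS : κ ≤ S) (hω : LR G ω)
    {U : Set ι} {a b c d : ι} (r : Rch (BG G κ L) U c d) (hc : c ∈ U) (hd : d ∈ U) (ha : a ∉ U)
    (hb : b ∉ U) : Lnk G κ (L a) (L b) (L c) (L d) := by
  obtain ⟨m1, m2, l⟩ := h.se2 hω a b (ω 0) 0
  obtain ⟨P, p1, -, p3, p4⟩ := l.fin
  obtain ⟨n, n1, n2⟩ := (((h.lr c).tail p1 κ).and ((h.lr d).tail p1 κ)).exists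
  obtain ⟨t, ⟨t1, t2⟩, t3⟩ := (((idx_of_far (G := G) (L c) (ω 0) n).and
    (idx_of_far (G := G) (L d) (ω 0) n)).and (far_out (G := G) p1 (ω 0) κ)).exists
  obtain ⟨m3, m4, l'⟩ := r.lk hc h.lr (fun i j e => (h.far i j e).le hS) (ω 0) t
  obtain ⟨P', q1, q2, q3, q4⟩ := l'.fin
  have key : ∀ e ∉ U, ∀ m, Far G κ (L e '' Ici m) (P' ∪ L c '' Ici m3 ∪ L d '' Ici m4) :=
    fun e he m => ((Far.symm (by rintro z hz _ ⟨k, -, rfl⟩; exact (q2 hz).2 e he k)).union'
      (((h.far e c fun k => he (k ▸ hc)).le hS).mono (image_subset_range _ _)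
        (image_subset_range _ _))).union' (((h.far e d fun k => he (k ▸ hd)).le hS).mono
          (image_subset_range _ _) (image_subset_range _ _))
  exact ⟨P, P', m1, m2, m3, m4, p1, q1, p4 _ p3, q4 _ q3, ((((t3.mono le_rfl fun z hz =>
    (q2 hz).1).union' (n1.mono le_rfl (image_mono (Ici_subset_Ici.2 (t1 _ l'.left.1))))).union'
      (n2.mono le_rfl (image_mono (Ici_subset_Ici.2 (t2 _ l'.right.1))))).union
        (key a ha m1)).union (key b hb m2)⟩

omit [Fact G.Connected] in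
theorem crs {a b c d : ℕ → V} (h : ∀ r ∈ [a, b, c, d], LR G r ∧ SE G r ω) (h1 : Lnk G κ a b c d)
    (h2 : Lnk G κ a c b d) (h3 : Lnk G κ a d b c) : Crs G κ ω :=
  ⟨![a, b, c, d], fun i => by fin_cases i <;> exact h _ (by simp), h1, h2, h3⟩

end Ord

open SimpleGraph Filter Set H49.Ord

theorem ordSpec (hM : MDSpec) (hR : ReachSpec) : OrdSpec := by
  intro V G _ _ κ σ N _ ω h1 h2 h3 hω hT hC
  obtain ⟨L, hL⟩ := hT (9 * σ) (N ^ 2 + 2 * N + (2 + 1) ^ N + 1)
  have hS : κ ≤ 9 * σ := by omega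
  rcases star_or_path (BG G κ L) ((hL.le (by omega)).rch hR h1 hω) (d := 2) (n := N)
    (by rw [Fintype.card_fin]; omega) with ⟨c, e, e1, e2⟩ | ⟨-, r, hr⟩
  · have k : ∀ i j k : Fin 3, j ≠ i → k ≠ i → Lnk G κ (L c) (L (e i)) (L (e j)) (L (e k)) :=
      fun i j k n1 n2 => (lnk_of_rch hL hS hω (U := {c, e i}) (.single ⟨by simp, by simp, e2 i⟩)
        (by simp) (by simp) (by simp [(e2 j).ne', e1.ne n1]) (by simp [(e2 k).ne', e1.ne n2])).s2
    exact absurd (crs (by simp [hL.lr, hL.se]) (k 0 1 2 (by decide) (by decide))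
      (k 1 0 2 (by decide) (by decide)) (k 2 0 1 (by decide) (by decide))) hC
  have inj : ∀ i j, i ≤ N → j ≤ N → r i = r j → i = j := fun i j hi hj e => by
    rcases le_total i j with k | k
    · have := hr i j k hj
      rw [e, SimpleGraph.dist_self] at this
      omega
    · have := hr j i k hi
      rw [e, SimpleGraph.dist_self] at this
      omega
  have inj' : Function.Injective fun a : ZMod N => r a.val := fun a b e =>
    ZMod.val_injective N (inj _ _ (ZMod.val_lt a).le (ZMod.val_lt b).le e)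
  have seg : ∀ i j k l, i ≤ j → j ≤ N → k ≤ N → l ≤ N → (k < i ∨ j < k) → (l < i ∨ j < l) →
      Lnk G κ (L (r k)) (L (r l)) (L (r i)) (L (r j)) := fun i j k l a1 a2 a3 a4 a5 a6 => by
    have q : ∀ m, i ≤ m → m ≤ j → Rch (BG G κ L) (r '' Icc i j) (r i) (r m) := fun m b1 b2 => by
      induction m, b1 using Nat.le_induction with
      | base => exact .refl
      | succ m b1 ih =>
        exact (ih (by omega)).tail ⟨⟨m, ⟨b1, by omega⟩, rfl⟩, ⟨m + 1, ⟨by omega, b2⟩, rfl⟩,
          dist_eq_one_iff_adj.1 ((hr m (m + 1) (by omega) (by omega)).trans (by omega))⟩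
    have q' : ∀ m, m ≤ N → (m < i ∨ j < m) → r m ∉ r '' Icc i j := by
      rintro m b1 b2 ⟨n, ⟨b3, b4⟩, b5⟩
      have := inj n m (by omega) b1 b5
      omega
    exact lnk_of_rch hL hS hω (q j a1 le_rfl) ⟨i, ⟨le_rfl, a1⟩, rfl⟩ ⟨j, ⟨a1, le_rfl⟩, rfl⟩
      (q' k a3 a5) (q' l a4 a6)
  have px : ∀ a b c d : ℤ, a < b → b < c → c < d → d < a + N → Lnk G κ (L (r (a : ZMod N).val))
      (L (r (b : ZMod N).val)) (L (r (c : ZMod N).val)) (L (r (d : ZMod N).val)) :=
    fun a b c d a1 a2 a3 a4 => by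
      have e1 := ZMod.val_lt (a : ZMod N)
      have e2 := ZMod.val_lt (b : ZMod N)
      have e3 := ZMod.val_lt (c : ZMod N)
      have e4 := ZMod.val_lt (d : ZMod N)
      have f2 := val_step (N := N) a1 (by omega)
      have f3 := val_step (N := N) (a1.trans a2) (by omega)
      have f4 := val_step (N := N) ((a1.trans a2).trans a3) a4
      rcases le_total (a : ZMod N).val (b : ZMod N).val with k | k
      · exact (seg _ _ _ _ k e2.le e3.le e4.le (by omega) (by omega)).s2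
      · exact seg _ _ _ _ (by omega) e4.le e1.le e2.le (by omega) (by omega)
  refine ⟨fun a => L (r a.val), ⟨hL.comp inj', px, fun a b c d a1 a2 a3 a4 l => hC ?_⟩,
    fun M h => (hM G σ).2.2 ω M L _ (by omega) hω h hL (by
      rw [ZMod.card, Fintype.card_fin]
      exact (Nat.le_add_right _ _).trans (Nat.le_succ _)) inj'⟩
  have k := px b c d (a + N) a2 a3 a4 (by omega)
  rw [show ((a + N : ℤ) : ZMod N) = a by simp] at k
  exact crs (by simp [hL.lr, hL.se]) (px a b c d a1 a2 a3 a4) l k.s2.s1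

namespace Ord

variable {V : Type} {G : SimpleGraph V} [Fact G.Connected] [G.LocallyFinite] {κ N : ℕ} [NeZero N]
  {ω : ℕ → V} {R : ZMod N → ℕ → V}

/-- The order cannot be reversed by a rerouting. -/
theorem no_refl (hP : PosSpec) (hF : FootSpec) (hZ : ZSpec) (hM : MDSpec) (h1 : 1 ≤ κ)
    (hN : 16 ≤ N) (h : OF G κ (9 * (12 * κ + 2)) ω R) (c : ZMod N) :
    ¬ MD G (12 * κ + 2) R fun a => R (c - a) := fun m => by
  obtain ⟨r, hr⟩ := (finite_range fun a => G.dist (ω 0) (R a 0)).bddAbove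
  obtain ⟨Y, hY⟩ : ∃ Y, Y = {y | G.dist (ω 0) y ≤ r} := ⟨_, rfl⟩
  have y1 : Y.Finite := hY ▸ finite_ball _ _
  have y2 : Y.Nonempty := ⟨ω 0, by simp [hY]⟩
  have y3 : ∀ x ∈ Y, Lk G Y (ω 0) x := fun x hx => Lk.ball fun z hz => by
    rw [hY] at hx ⊢
    exact hz.trans hx
  obtain ⟨R', r1, r2⟩ := hF G (12 * κ + 2) (12 * κ + 2) Y R y1
    (fun i => ⟨h.rf.lr i, hY ▸ hr ⟨i, rfl⟩⟩) fun i j e => (h.rf.far i j e).le (by omega)
  have pb : PB G κ Y R' := ⟨y1, y2, fun x hx y hy => (y3 x hx).symm.trans (y3 y hy),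
    fun a => (r1 a).1, r2, fun a b c d a1 a2 a3 a4 l => h.nx a b c d a1 a2 a3 a4
      (l.te4 (r1 _).1 (r1 _).1 (r1 _).1 (r1 _).1 (r1 _).2.1 (r1 _).2.1 (r1 _).2.1 (r1 _).2.1),
    fun a => (r1 a).2.2.1, fun a => (r1 a).2.2.2⟩
  obtain ⟨pos, ps⟩ := hP G κ N Y R' h1 (by omega) pb
  obtain ⟨Ψ, s1, s2⟩ := ((hM G _).1 _ _ _ ((MD.refl pb.lr r2).te fun i => (r1 i).2.1) m).te
    (fun i => (r1 _).2.1.symm) (ω 0) (r + (12 * κ + 2))
  have deep : ∀ a k, 11 * κ + 2 ≤ k → 10 * κ + 2 ≤ dp G Y (Ψ a k) := fun a k hk => by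
    obtain ⟨-, -, n, -, n2, n3⟩ := s1 a
    rcases le_total k n with e | e
    · rw [n2 k e]
      exact pb.up (k := 11 * κ + 2) (by omega) (by rw [pb.low a _ (by omega)]; omega) hk
    · obtain ⟨y, hy, e'⟩ := dp_ex (G := G) y2 (Ψ a k)
      have := n3 k e
      have := tri (G := G) (ω 0) y (Ψ a k)
      rw [hY, mem_ofPred_eq] at hy
      omega
  have ex : ∀ a, ∃ (m : ℕ) (p : G.Walk (R' a (11 * κ + 2)) (R' (c - a) m)),
      (∀ z ∈ p.support, z ∈ range (Ψ a) ∧ 10 * κ + 2 ≤ dp G Y z) ∧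
        R' (c - a) '' Ici m ⊆ range (Ψ a) := fun a => by
    obtain ⟨a1, ⟨m, n, a2⟩, k, a3, a4, -⟩ := s1 a
    have l : Lk G {z | z ∈ range (Ψ a) ∧ 10 * κ + 2 ≤ dp G Y z} (Ψ a (11 * κ + 2))
        (Ψ a (m + (11 * κ + 2))) := a1.lk fun j j1 _ => ⟨⟨j, rfl⟩, deep a j (by omega)⟩
    rw [a2, a4 _ (by omega)] at l
    obtain ⟨p, hp⟩ := l
    refine ⟨_, p, hp, ?_⟩
    rintro _ ⟨j, hj, rfl⟩
    obtain ⟨i, rfl⟩ := Nat.exists_eq_add_of_le (show n ≤ j from le_of_add_le_left hj)
    exact ⟨_, a2 i⟩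
  choose m p p1 p2 using ex
  have on : ∀ a k, 10 * κ + 2 ≤ dp G Y (R' a k) → pos (R' a k) = a := fun a k e =>
    ps.on a k _ (by omega) (by simp)
  have o1 : ∀ a, pos (R' a (11 * κ + 2)) = a := fun a => on _ _ (p1 a _ (p a).start_mem_support).2
  have o2 : ∀ a, pos (R' (c - a) (m a)) = c - a := fun a =>
    on _ _ (p1 a _ (p a).end_mem_support).2
  have top : ∀ a b, a ≠ b → Top G κ R' pos (R' (c - a) (m a)) (p b) := fun a b e =>
    ⟨m a, by simp [o2], by
      rw [o2]
      exact ((s2 a b e).le (by omega)).mono (p2 a) fun z hz => (p1 b z hz).1⟩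
  have key : ∀ (a b : ZMod N) (P Q : ℤ), (P : ZMod N) = a → (Q : ZMod N) = b → P + 4 < Q →
      Q < P + N → P + dw pos (p a) < Q + dw pos (p b) := fun a b P Q e1 e2 e3 e4 => by
    have e : a ≠ b := fun e => by
      have := eq_of_cast (e1.trans (e.trans e2.symm)) (by omega) e4
      omega
    exact (hZ G κ N Y R' pos h1 (by omega) ps (p a) (p b) P Q (fun z hz => (p1 a z hz).2)
      (fun z hz => (p1 b z hz).2) (((s2 a b e).le (by omega)).mono (fun z hz => (p1 a z hz).1)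
        fun z hz => (p1 b z hz).1) (by rw [o1, e1]) (by rw [o1, e2])
      (by rw [pb.low _ _ (by omega)]) (top a b e) (top b a e.symm)
      (by rw [o2, o2]; exact fun k => e (sub_right_injective k))).2
      (by rw [pb.low _ _ (by omega)]) e3
  have k1 := key 0 5 0 5 (by simp) (by simp) (by omega) (by omega)
  have k2 := key 5 10 5 10 (by simp) (by simp) (by omega) (by omega)
  have k3 := key 10 0 10 N (by simp) (by simp) (by omega) (by omega)
  have c1 := eq_of_cast (N := N) (a := dw pos (p 5) + 10) (b := dw pos (p 0) + N) (by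
    simp only [Int.cast_add, dw_cast, o1, o2, Int.cast_natCast, ZMod.natCast_self, Int.cast_ofNat]
    ring) (by omega) (by omega)
  have c2 := eq_of_cast (N := N) (a := dw pos (p 10) + 20) (b := dw pos (p 0) + N) (by
    simp only [Int.cast_add, dw_cast, o1, o2, Int.cast_natCast, ZMod.natCast_self, Int.cast_ofNat]
    ring) (by omega) (by omega)
  omega

/-- A rerouting permutation of an image of the family moves neighbours to neighbours. -/
theorem step (hM : MDSpec) {S σ : ℕ} (h1 : κ ≤ σ) (h : OF G κ S ω R)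
    (w : G ≃g G) (π : Equiv.Perm (ZMod N))
    (m : MD G σ (fun a n => w (R a n)) fun a => R (π a)) (hN : 3 ≤ N) (x : ZMod N) :
    π (x + 1) = π x + 1 ∨ π (x + 1) = π x - 1 := by
  by_contra k
  push Not at k
  obtain ⟨X, rfl, -⟩ := lift x 0
  obtain ⟨a, a1, -⟩ := lift (π X) 0
  obtain ⟨b, b1, b2, b3⟩ := lift (π (X + 1)) a
  have n0 : (X : ZMod N) + 1 ≠ X := fun e => by
    have := eq_of_cast (N := N) (a := X + 1) (b := X) (by simpa using e) (by omega) (by omega)
    omega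
  have n1 : b ≠ a := fun e => n0 (π.injective (by rw [← b1, e, a1]))
  have n2 : b ≠ a + 1 := fun e => k.1 (by rw [← b1, e, ← a1]; simp)
  have n3 : b ≠ a + N - 1 := fun e => k.2 (by rw [← b1, e, ← a1]; simp)
  obtain ⟨c, c1, c2, c3⟩ := lift (π.symm (a + 1 : ℤ)) X
  obtain ⟨d, d1, d2, d3⟩ := lift (π.symm (b + 1 : ℤ)) X
  rw [eq_comm, Equiv.symm_apply_eq] at c1 d1
  have q : ∀ u v : ℤ, a ≤ u → u < a + N → a ≤ v → v < a + N → u ≠ v → ∀ s t : ZMod N,
      (u : ZMod N) = π s → (v : ZMod N) = π t → s ≠ t := fun u v u1 u2 v1 v2 e s t s1 t1 e' =>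
    e (eq_of_cast (N := N) (by rw [s1, t1, e']) (by omega) (by omega))
  have f1 := q a (a + 1) (by omega) (by omega) (by omega) (by omega) (by omega) _ _ a1 c1
  have f2 := q a (b + 1) (by omega) (by omega) (by omega) (by omega) (by omega) _ _ a1 d1
  have f3 := q b (a + 1) (by omega) (by omega) (by omega) (by omega) (by omega) _ _ b1 c1
  have f4 := q b (b + 1) (by omega) (by omega) (by omega) (by omega) (by omega) _ _ b1 d1
  have f5 := q (a + 1) (b + 1) (by omega) (by omega) (by omega) (by omega) (by omega) _ _ c1 d1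
  have g1 : X + 1 < c := lt_of_le_of_ne (lt_of_le_of_ne c2 fun e => f1 (by rw [e]))
    fun e => f3 (by rw [← e]; simp)
  have g2 : X + 1 < d := lt_of_le_of_ne (lt_of_le_of_ne d2 fun e => f2 (by rw [e]))
    fun e => f4 (by rw [← e]; simp)
  have l : Lnk G κ (R X) (R (X + 1 : ℤ)) (R c) (R d) := by
    rcases lt_or_gt_of_ne (show c ≠ d from fun e => f5 (by rw [e])) with e | e
    · exact h.px _ _ _ _ (by omega) g1 e d3
    · exact (h.px _ _ _ _ (by omega) g2 e c3).s2.s1.s2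
  rw [Int.cast_add, Int.cast_one] at l
  have l' := (hM G σ).2.1 _ _ κ _ _ _ _ h1 (fun i => (h.rf.lr i).map w) m f1 f2 f3 f4 (l.map w)
  simp only [← a1, ← b1, ← c1, ← d1] at l'
  exact h.nx a (a + 1) b (b + 1) (by omega) (by omega) (by omega) (by omega) l'

end Ord

theorem epsSpec (hP : PosSpec) (hF : FootSpec) (hZ : ZSpec) (hM : MDSpec) : EpsSpec := by
  intro V G _ _ κ N _ ω R P h1 hN hω h hπ hse
  let T : (G ≃g G) → (ZMod N → ZMod N) → Prop := fun w f =>
    MD G (12 * κ + 2) (fun a n => w (R a n)) fun a => R (f a)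
  have mul : ∀ w w' f f' g, Function.Injective f' → T w f → T w' f' → (∀ a, f (f' a) = g a) →
      T (w * w') g := fun w w' f f' g e t t' k => by
    obtain rfl : (fun a => f (f' a)) = g := funext k
    exact (hM G _).1 _ _ _ (t'.map w) (t.comp e)
  have dich : ∀ w ∈ P, (∃ c, T w fun a => a + c) ∨ ∃ c, T w fun a => c - a := fun w hw => by
    have r := h.rf.map w
    obtain ⟨π, m⟩ := hπ _ ⟨r.lr, fun i => (r.se i).trans (hse w hw) (r.lr i) (hω.map w) hω, r.far⟩
    have s := step hM (by omega) h w π m (by omega)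
    rcases s 0 with e | e
    · have k := lin (by omega) π.injective s e
      exact Or.inl ⟨π 0, m.te fun a => by rw [k a, one_mul, add_comm]; exact TE.refl _⟩
    · have k := lin (by omega) π.injective (s := -1)
        (fun x => by simpa only [← sub_eq_add_neg, sub_neg_eq_add] using (s x).symm)
        (by rw [e, sub_eq_add_neg])
      exact Or.inr ⟨π 0, m.te fun a => by
        rw [k a, neg_one_mul, ← sub_eq_add_neg]; exact TE.refl _⟩
  have no : ∀ w c, ¬ T (w⁻¹ * w) fun a => c - a := fun w c t => by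
    rw [inv_mul_cancel] at t
    exact no_refl hP hF hZ hM h1 hN h c t
  refine ⟨⟨⟨⟨{w | w ∈ P ∧ ∃ c, T w fun a => a + c}, ?_⟩, P.one_mem, 0, ?_⟩, ?_⟩, fun w hw => hw.1,
    fun w hw => hw.2, fun w hw w' hw' => ?_⟩
  · rintro w w' ⟨a1, c, a2⟩ ⟨b1, c', b2⟩
    exact ⟨P.mul_mem a1 b1, c' + c, mul _ _ _ _ _ (add_left_injective c') a2 b2
      fun a => add_assoc _ _ _⟩
  · simp only [T, add_zero]
    exact MD.refl h.rf.lr fun i j e => (h.rf.far i j e).le (by omega)
  · rintro w ⟨a1, c, a2⟩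
    refine ⟨P.inv_mem a1, (dich _ (P.inv_mem a1)).resolve_right fun ⟨c', b⟩ => ?_⟩
    exact no w (c' - c) (mul _ _ _ _ _ (add_left_injective c) b a2 fun a => by ring)
  · rcases dich w hw with k | ⟨c, k⟩
    · exact Or.inl ⟨hw, k⟩
    rcases dich w' hw' with k' | ⟨c', k'⟩
    · exact Or.inr (Or.inl ⟨hw', k'⟩)
    rcases dich _ (P.inv_mem hw) with ⟨e, b⟩ | ⟨e, b⟩
    · exact absurd (mul _ _ _ _ _ sub_right_injective b k fun a => by ring) (no w (c + e))
    · exact Or.inr (Or.inr ⟨P.mul_mem (P.inv_mem hw) hw', e - c',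
        mul _ _ _ _ _ sub_right_injective b k' fun a => by ring⟩)

end Pool.Agent.MP_77f003_co.H49
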